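import Mathlib

/-!
# Tilings of the cube by n nearly equal cubes of three sizes

Fix `k ≥ 1` and cut the unit cube into `m³` cubes of relative side `k`. A block of `(k+1)³` of them
can be replaced by `k³` cubes of relative side `k + 1`, and a block of `(k+2)³` of them by `k³` cubes
of relative side `k + 2`. The number of cubes falls by `(k+1)³ - k³` and by `(k+2)³ - k³`, and these
two numbers are coprime. So every `n` slightly below `m³` is reached, with sizes of ratio at most
`(k+2)/k`.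
-/

namespace Pool.Agent.Results.MP_695dce_co.ThreeSizes

open Set Filter Topology Function

/-- A cube with sides parallel to the axes: its lowest corner and its side length. -/
abbrev Cube := (Fin 3 → ℝ) × ℝ

/-- The closed solid cube. -/
def solid (C : Cube) : Set (Fin 3 → ℝ) := Icc C.1 (fun i => C.1 i + C.2)

/-- The `n` cubes `T i` tile the unit cube. -/
structure IsTiling {n : ℕ} (T : Fin n → Cube) : Prop where
  pos : ∀ i, 0 < (T i).2
  disj : Pairwise fun i j => Disjoint (interior (solid (T i))) (interior (solid (T j)))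
  cover : ⋃ i, solid (T i) = Icc 0 1

/-- The number of distinct side lengths. -/
noncomputable def numSizes {n : ℕ} (T : Fin n → Cube) : ℕ :=
  (Finset.univ.image fun i => (T i).2).card

/-- The ratio of the largest side length to the smallest. -/
noncomputable def ratio {n : ℕ} (T : Fin n → Cube) : ℝ := (⨆ i, (T i).2) / ⨅ i, (T i).2

lemma interior_solid (C : Cube) :
    interior (solid C) = Set.pi univ fun i => Ioo (C.1 i) (C.1 i + C.2) := by
  rw [solid, ← Set.pi_univ_Icc, interior_pi_set Set.finite_univ]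
  simp only [interior_Icc]

/-- The box `lo + [0, w]` is tiled by `n` cubes with sides in `S`. -/
def Til (S : Set ℝ) (lo w : Fin 3 → ℝ) (n : ℕ) : Prop :=
  ∃ T : Fin n → Cube, (∀ i, 0 < (T i).2 ∧ (T i).2 ∈ S) ∧
    (Pairwise fun i j => Disjoint (interior (solid (T i))) (interior (solid (T j)))) ∧
    ⋃ i, solid (T i) = Icc lo (lo + w)

lemma lower_mem {C : Cube} (h : 0 < C.2) : C.1 ∈ solid C :=
  ⟨le_rfl, fun i => by simp; exact h.le⟩

lemma upper_mem {C : Cube} (h : 0 < C.2) : (fun i => C.1 i + C.2) ∈ solid C :=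
  ⟨fun i => by simp; exact h.le, le_rfl⟩

lemma Til.add {S : Set ℝ} {lo w1 w2 : Fin 3 → ℝ} {n1 n2 : ℕ} (k : Fin 3)
    (h1 : Til S lo w1 n1) (h2 : Til S (update lo k (lo k + w1 k)) w2 n2)
    (hw : ∀ j, j ≠ k → w1 j = w2 j) (p1 : 0 ≤ w1 k) (p2 : 0 ≤ w2 k) :
    Til S lo (update w1 k (w1 k + w2 k)) (n1 + n2) := by
  obtain ⟨T1, a1, b1, c1⟩ := h1
  obtain ⟨T2, a2, b2, c2⟩ := h2
  have key : ∀ i j, Disjoint (interior (solid (T1 i))) (interior (solid (T2 j))) := by
    intro i j
    rw [Set.disjoint_left]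
    intro x hx hx'
    rw [interior_solid] at hx hx'
    have e1 : (fun l => (T1 i).1 l + (T1 i).2) ∈ Icc lo (lo + w1) := by
      rw [← c1]; exact mem_iUnion.2 ⟨i, upper_mem (a1 i).1⟩
    have e2 : (T2 j).1 ∈ Icc (update lo k (lo k + w1 k)) (update lo k (lo k + w1 k) + w2) := by
      rw [← c2]; exact mem_iUnion.2 ⟨j, lower_mem (a2 j).1⟩
    have f1 := e1.2 k
    have f2 := e2.1 k
    have g1 := (hx k (mem_univ k)).2
    have g2 := (hx' k (mem_univ k)).1
    simp only [Pi.add_apply, update_self] at f1 f2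
    linarith
  refine ⟨Fin.append T1 T2, ?_, ?_, ?_⟩
  · intro i
    refine Fin.addCases (fun i => ?_) (fun i => ?_) i
    · rw [Fin.append_left]; exact a1 i
    · rw [Fin.append_right]; exact a2 i
  · intro i j
    refine Fin.addCases (fun i => ?_) (fun i => ?_) i <;>
      refine Fin.addCases (fun j => ?_) (fun j => ?_) j
    · intro hij
      rw [Fin.append_left, Fin.append_left]
      exact b1 (fun h => hij (by rw [h]))
    · intro _
      rw [Fin.append_left, Fin.append_right]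
      exact key i j
    · intro _
      rw [Fin.append_left, Fin.append_right]
      exact (key j i).symm
    · intro hij
      rw [Fin.append_right, Fin.append_right]
      exact b2 (fun h => hij (by rw [h]))
  · have e : ⋃ i, solid (Fin.append T1 T2 i) = (⋃ i, solid (T1 i)) ∪ ⋃ i, solid (T2 i) := by
      ext x
      simp only [mem_iUnion, mem_union]
      constructor
      · rintro ⟨i, hi⟩
        revert hi
        refine Fin.addCases (fun i hi => ?_) (fun i hi => ?_) i
        · left; rw [Fin.append_left] at hi; exact ⟨i, hi⟩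
        · right; rw [Fin.append_right] at hi; exact ⟨i, hi⟩
      · rintro (⟨i, hi⟩ | ⟨i, hi⟩)
        · exact ⟨Fin.castAdd _ i, by rw [Fin.append_left]; exact hi⟩
        · exact ⟨Fin.natAdd _ i, by rw [Fin.append_right]; exact hi⟩
    rw [e, c1, c2]
    ext x
    constructor
    · rintro (⟨h1, h2⟩ | ⟨h1, h2⟩)
      · refine ⟨h1, fun l => ?_⟩
        by_cases hl : l = k
        · subst hl
          have := h2 l
          simp only [Pi.add_apply, update_self] at this ⊢
          linarith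
        · have := h2 l
          simp only [Pi.add_apply, update_of_ne hl] at this ⊢
          exact this
      · refine ⟨fun l => ?_, fun l => ?_⟩
        · by_cases hl : l = k
          · subst hl
            have := h1 l
            simp only [update_self] at this
            linarith
          · have := h1 l
            simpa only [update_of_ne hl] using this
        · by_cases hl : l = k
          · subst hl
            have := h2 l
            simp only [Pi.add_apply, update_self] at this ⊢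
            linarith
          · have := h2 l
            simp only [Pi.add_apply, update_of_ne hl] at this ⊢
            rw [hw l hl]; exact this
    · rintro ⟨h1, h2⟩
      rcases le_total (x k) (lo k + w1 k) with hx | hx
      · left
        refine ⟨h1, fun l => ?_⟩
        by_cases hl : l = k
        · subst hl; exact hx
        · have := h2 l
          simp only [Pi.add_apply, update_of_ne hl] at this ⊢
          exact this
      · right
        refine ⟨fun l => ?_, fun l => ?_⟩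
        · by_cases hl : l = k
          · subst hl; simp only [update_self]; exact hx
          · simp only [update_of_ne hl]; exact h1 l
        · by_cases hl : l = k
          · subst hl
            have := h2 l
            simp only [Pi.add_apply, update_self] at this ⊢
            linarith
          · have := h2 l
            simp only [Pi.add_apply, update_of_ne hl] at this ⊢
            rw [← hw l hl]; exact this

/-- Every translate of the box with integer dimensions `x, y, z` (in units of `h`) is tiled by `n`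
cubes with sides in `S`. -/
def V (S : Set ℝ) (h : ℝ) (x y z n : ℕ) : Prop :=
  ∀ lo : Fin 3 → ℝ, Til S lo ![x * h, y * h, z * h] n

section V

variable {S : Set ℝ} {h : ℝ}

lemma V.addX (hh : 0 ≤ h) {x1 x2 y z n1 n2 : ℕ} (h1 : V S h x1 y z n1) (h2 : V S h x2 y z n2) :
    V S h (x1 + x2) y z (n1 + n2) := by
  intro lo
  have := Til.add 0 (h1 lo) (h2 _) (fun j hj => by fin_cases j <;> simp_all)
    (by simp; positivity) (by simp; positivity)
  convert this using 1
  ext j
  fin_cases j <;> simp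
  ring

lemma V.addY (hh : 0 ≤ h) {x y1 y2 z n1 n2 : ℕ} (h1 : V S h x y1 z n1) (h2 : V S h x y2 z n2) :
    V S h x (y1 + y2) z (n1 + n2) := by
  intro lo
  have := Til.add 1 (h1 lo) (h2 _) (fun j hj => by fin_cases j <;> simp_all)
    (by simp; positivity) (by simp; positivity)
  convert this using 1
  ext j
  fin_cases j <;> simp
  ring

lemma V.addZ (hh : 0 ≤ h) {x y z1 z2 n1 n2 : ℕ} (h1 : V S h x y z1 n1) (h2 : V S h x y z2 n2) :
    V S h x y (z1 + z2) (n1 + n2) := by
  intro lo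
  have := Til.add 2 (h1 lo) (h2 _) (fun j hj => by fin_cases j <;> simp_all)
    (by simp; positivity) (by simp; positivity)
  convert this using 1
  ext j
  fin_cases j <;> simp
  ring

lemma V.single {s : ℕ} (hs : 0 < (s : ℝ) * h) (hS : (s : ℝ) * h ∈ S) : V S h s s s 1 := by
  intro lo
  refine ⟨fun _ => (lo, s * h), fun _ => ⟨hs, hS⟩, ?_, ?_⟩
  · intro i j hij
    exact absurd (Subsingleton.elim i j) hij
  · have : (fun i => lo i + s * h) = lo + ![s * h, s * h, s * h] := by
      ext i; fin_cases i <;> simp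
    simp only [solid, this, iUnion_const]

/-- `N, N - δ, …, N - I δ` are possible numbers of tiles. -/
def Q (S : Set ℝ) (h : ℝ) (x y z N δ I : ℕ) : Prop :=
  I * δ ≤ N ∧ ∀ i ≤ I, V S h x y z (N - i * δ)

lemma split {i r I : ℕ} (hi : i ≤ (r + 1) * I) : ∃ i1 i2, i = i1 + i2 ∧ i1 ≤ r * I ∧ i2 ≤ I := by
  rcases le_total i (r * I) with h | h
  · exact ⟨i, 0, rfl, h, Nat.zero_le _⟩
  · exact ⟨r * I, i - r * I, by omega, le_rfl, by rw [add_mul, one_mul] at hi; omega⟩

lemma count {r N δ I i1 i2 : ℕ} (hN : I * δ ≤ N) (h1 : i1 ≤ r * I) (h2 : i2 ≤ I) :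
    (r + 1) * N - (i1 + i2) * δ = (r * N - i1 * δ) + (N - i2 * δ) := by
  have e1 : i1 * δ ≤ r * N := by
    calc i1 * δ ≤ r * I * δ := Nat.mul_le_mul_right _ h1
      _ = r * (I * δ) := by ring
      _ ≤ r * N := Nat.mul_le_mul_left _ hN
  have e2 : i2 * δ ≤ N := (Nat.mul_le_mul_right _ h2).trans hN
  have e3 : (r + 1) * N = r * N + N := by ring
  have e4 : (i1 + i2) * δ = i1 * δ + i2 * δ := by ring
  omega

lemma Q.repX (hh : 0 ≤ h) {x y z N δ I : ℕ} (hq : Q S h x y z N δ I) (r : ℕ) :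
    Q S h ((r + 1) * x) y z ((r + 1) * N) δ ((r + 1) * I) := by
  induction r with
  | zero => simpa using hq
  | succ r ih =>
    refine ⟨?_, fun i hi => ?_⟩
    · rw [mul_assoc]; exact Nat.mul_le_mul_left _ hq.1
    · obtain ⟨i1, i2, e, h1, h2⟩ := split hi
      rw [e, count hq.1 h1 h2, add_mul (r + 1) 1 x, one_mul]
      exact (ih.2 i1 h1).addX hh (hq.2 i2 h2)

lemma Q.repY (hh : 0 ≤ h) {x y z N δ I : ℕ} (hq : Q S h x y z N δ I) (r : ℕ) :
    Q S h x ((r + 1) * y) z ((r + 1) * N) δ ((r + 1) * I) := by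
  induction r with
  | zero => simpa using hq
  | succ r ih =>
    refine ⟨?_, fun i hi => ?_⟩
    · rw [mul_assoc]; exact Nat.mul_le_mul_left _ hq.1
    · obtain ⟨i1, i2, e, h1, h2⟩ := split hi
      rw [e, count hq.1 h1 h2, add_mul (r + 1) 1 y, one_mul]
      exact (ih.2 i1 h1).addY hh (hq.2 i2 h2)

lemma Q.repZ (hh : 0 ≤ h) {x y z N δ I : ℕ} (hq : Q S h x y z N δ I) (r : ℕ) :
    Q S h x y ((r + 1) * z) ((r + 1) * N) δ ((r + 1) * I) := by
  induction r with
  | zero => simpa using hq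
  | succ r ih =>
    refine ⟨?_, fun i hi => ?_⟩
    · rw [mul_assoc]; exact Nat.mul_le_mul_left _ hq.1
    · obtain ⟨i1, i2, e, h1, h2⟩ := split hi
      rw [e, count hq.1 h1 h2, add_mul (r + 1) 1 z, one_mul]
      exact (ih.2 i1 h1).addZ hh (hq.2 i2 h2)

/-- A grid of cubes of side `s`. -/
lemma V.grid (hh : 0 ≤ h) {s : ℕ} (hs : V S h s s s 1) {u v w : ℕ} (hu : 0 < u) (hv : 0 < v)
    (hw : 0 < w) : V S h (u * s) (v * s) (w * s) (u * v * w) := by
  obtain ⟨u, rfl⟩ := Nat.exists_eq_succ_of_ne_zero hu.ne'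
  obtain ⟨v, rfl⟩ := Nat.exists_eq_succ_of_ne_zero hv.ne'
  obtain ⟨w, rfl⟩ := Nat.exists_eq_succ_of_ne_zero hw.ne'
  have h0 : Q S h s s s 1 0 0 := ⟨by simp, fun i hi => by simpa using hs⟩
  have h1 := ((h0.repX hh u).repY hh v).repZ hh w
  have h2 := h1.2 0 (Nat.zero_le _)
  have e : (w + 1) * ((v + 1) * ((u + 1) * 1)) - 0 * 0 = (u + 1) * (v + 1) * (w + 1) := by
    simp; ring
  rw [e] at h2
  exact h2

/-- A block of side `k a` has a tiling with `a³` cubes of side `k` and one with `k³` cubes of side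
`a`. -/
lemma block (hh : 0 ≤ h) {k a : ℕ} (hk : 0 < k) (hka : k ≤ a) (h1 : V S h k k k 1)
    (h2 : V S h a a a 1) (r : ℕ) :
    Q S h ((r + 1) * (a * k)) ((r + 1) * (a * k)) ((r + 1) * (a * k)) (((r + 1) * a) ^ 3)
      (a ^ 3 - k ^ 3) ((r + 1) ^ 3) := by
  have hle : k ^ 3 ≤ a ^ 3 := Nat.pow_le_pow_left hka 3
  have h0 : Q S h (a * k) (a * k) (a * k) (a ^ 3) (a ^ 3 - k ^ 3) 1 := by
    refine ⟨by omega, fun i hi => ?_⟩
    interval_cases i
    · have := h1.grid hh (lt_of_lt_of_le hk hka) (lt_of_lt_of_le hk hka) (lt_of_lt_of_le hk hka)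
      convert this using 1
      simp; ring
    · have := h2.grid hh hk hk hk
      rw [mul_comm k a] at this
      convert this using 1
      have : a ^ 3 - 1 * (a ^ 3 - k ^ 3) = k ^ 3 := by omega
      rw [this]; ring
  have h3 := ((h0.repX hh r).repY hh r).repZ hh r
  have e1 : (r + 1) * ((r + 1) * ((r + 1) * a ^ 3)) = ((r + 1) * a) ^ 3 := by ring
  have e2 : (r + 1) * ((r + 1) * ((r + 1) * 1)) = (r + 1) ^ 3 := by ring
  rw [e1, e2] at h3
  exact h3

/-- Filling a box around a corner block by cubes of side `k`. -/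
lemma corner (hh : 0 ≤ h) {k R m n : ℕ} (h1 : V S h k k k 1) (hR : 0 < R) (hm : R < m)
    (hq : V S h (R * k) (R * k) (R * k) n) :
    V S h (R * k) (m * k) (m * k) (n + (R * m * m - R ^ 3)) := by
  have hmR : 0 < m - R := by omega
  have a1 : V S h (R * k) (R * k) (m * k) (n + R * R * (m - R)) := by
    have := hq.addZ hh (h1.grid hh hR hR hmR)
    rwa [← add_mul, Nat.add_sub_cancel' hm.le] at this
  have a2 : V S h (R * k) (m * k) (m * k) (n + R * R * (m - R) + R * (m - R) * m) := by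
    have := a1.addY hh (h1.grid hh hR hmR (by omega : 0 < m))
    rwa [← add_mul, Nat.add_sub_cancel' hm.le] at this
  convert a2 using 1
  obtain ⟨t, rfl⟩ := Nat.exists_eq_add_of_le hm.le
  have : R * (R + t) * (R + t) - R ^ 3 = R * R * t + R * t * (R + t) := by
    have : R * (R + t) * (R + t) = (R * R * t + R * t * (R + t)) + R ^ 3 := by ring
    rw [this, Nat.add_sub_cancel]
  rw [this, Nat.add_sub_cancel_left]
  ring

/-- The number of tiles in the cube of side `m k`. -/
lemma assemble (hh : 0 ≤ h) {k m r1 r2 i j : ℕ} (hk : 0 < k) (h1 : V S h k k k 1)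
    (h2 : V S h (k + 1) (k + 1) (k + 1) 1) (h3 : V S h (k + 2) (k + 2) (k + 2) 1)
    (hm : (r1 + 1) * (k + 1) + (r2 + 1) * (k + 2) < m) (hi : i ≤ (r1 + 1) ^ 3)
    (hj : j ≤ (r2 + 1) ^ 3) :
    ∃ N, N + i * ((k + 1) ^ 3 - k ^ 3) + j * ((k + 2) ^ 3 - k ^ 3) = m ^ 3 ∧
      V S h (m * k) (m * k) (m * k) N := by
  have b1 := block hh hk (by omega : k ≤ k + 1) h1 h2 r1
  have b2 := block hh hk (by omega : k ≤ k + 2) h1 h3 r2
  have c1 := b1.2 i hi
  have c2 := b2.2 j hj
  rw [← mul_assoc] at c1 c2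
  obtain ⟨R1, hR1⟩ : ∃ R, R = (r1 + 1) * (k + 1) := ⟨_, rfl⟩
  obtain ⟨R2, hR2⟩ : ∃ R, R = (r2 + 1) * (k + 2) := ⟨_, rfl⟩
  have hR1' : 0 < R1 := by rw [hR1]; positivity
  have hR2' : 0 < R2 := by rw [hR2]; positivity
  rw [← hR1] at c1 hm b1
  rw [← hR2] at c2 hm b2
  have d1 := corner hh h1 hR1' (by omega : R1 < m) c1
  have d2 := corner hh h1 hR2' (by omega : R2 < m) c2
  have d3 := h1.grid hh (by omega : 0 < m - (R1 + R2)) (by omega : 0 < m) (by omega : 0 < m)
  have d4 := (d1.addX hh d2).addX hh d3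
  rw [← add_mul, ← add_mul, Nat.add_sub_cancel' hm.le] at d4
  refine ⟨_, ?_, d4⟩
  have e1 : i * ((k + 1) ^ 3 - k ^ 3) ≤ R1 ^ 3 :=
    (Nat.mul_le_mul_right _ hi).trans b1.1
  have e2 : j * ((k + 2) ^ 3 - k ^ 3) ≤ R2 ^ 3 :=
    (Nat.mul_le_mul_right _ hj).trans b2.1
  obtain ⟨t, rfl⟩ := Nat.exists_eq_add_of_le hm.le
  have f1 : R1 ^ 3 ≤ R1 * (R1 + R2 + t) * (R1 + R2 + t) := by
    have : R1 * (R1 + R2 + t) * (R1 + R2 + t)
      = R1 ^ 3 + R1 * (R2 + t) * (2 * R1 + R2 + t) := by ring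
    rw [this]; exact Nat.le_add_right _ _
  have f2 : R2 ^ 3 ≤ R2 * (R1 + R2 + t) * (R1 + R2 + t) := by
    have : R2 * (R1 + R2 + t) * (R1 + R2 + t)
      = R2 ^ 3 + R2 * (R1 + t) * (2 * R2 + R1 + t) := by ring
    rw [this]; exact Nat.le_add_right _ _
  have f3 : (R1 + R2 + t) ^ 3 = R1 * (R1 + R2 + t) * (R1 + R2 + t)
      + R2 * (R1 + R2 + t) * (R1 + R2 + t) + t * (R1 + R2 + t) * (R1 + R2 + t) := by ring
  have f4 : R1 + R2 + t - (R1 + R2) = t := by omega
  rw [f4]
  omega

end V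

lemma exists_repr {A B D : ℕ} (hA : 0 < A) (hc : Nat.Coprime A B) (hD : A * B ≤ D) :
    ∃ i j, i * A + j * B = D ∧ j < A := by
  have : NeZero A := ⟨hA.ne'⟩
  obtain ⟨j, hj⟩ : ∃ j : ZMod A, j * (B : ZMod A) = D :=
    ⟨D * (B : ZMod A)⁻¹, by
      rw [mul_assoc, mul_comm (B : ZMod A)⁻¹, ZMod.coe_mul_inv_eq_one B hc.symm, mul_one]⟩
  have hlt := ZMod.val_lt j
  have h1 : ((j.val * B : ℕ) : ZMod A) = ((D : ℕ) : ZMod A) := by
    push_cast; rw [ZMod.natCast_zmod_val]; exact hj
  have h2 : j.val * B ≤ D := (Nat.mul_le_mul_right _ hlt.le).trans hD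
  rw [ZMod.natCast_eq_natCast_iff, Nat.modEq_iff_dvd' h2] at h1
  obtain ⟨i, hi⟩ := h1
  refine ⟨i, j.val, ?_, hlt⟩
  rw [mul_comm i A, ← hi]; omega

/-- For fixed `k` and all large `n` there is a tiling by `n` cubes with sides `k h, (k+1) h,
(k+2) h`. -/
lemma exists_tiling {k : ℕ} (hk : 0 < k) : ∃ n₀ : ℕ, ∀ n ≥ n₀, ∃ h : ℝ, 0 < h ∧
    ∃ T : Fin n → Cube, IsTiling T ∧
      ∀ i, (T i).2 = k * h ∨ (T i).2 = (k + 1) * h ∨ (T i).2 = (k + 2) * h := by
  obtain ⟨A, hA⟩ : ∃ A, A = (k + 1) ^ 3 - k ^ 3 := ⟨_, rfl⟩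
  obtain ⟨B, hB⟩ : ∃ B, B = (k + 2) ^ 3 - k ^ 3 := ⟨_, rfl⟩
  have hA' : A = 3 * k * (k + 1) + 1 := by
    rw [hA]
    have : (k + 1) ^ 3 = 3 * k * (k + 1) + 1 + k ^ 3 := by ring
    rw [this, Nat.add_sub_cancel]
  have hB' : B = 2 * (3 * k ^ 2 + 6 * k + 4) := by
    rw [hB]
    have : (k + 2) ^ 3 = 2 * (3 * k ^ 2 + 6 * k + 4) + k ^ 3 := by ring
    rw [this, Nat.add_sub_cancel]
  have hApos : 0 < A := by rw [hA']; positivity
  have hcop : Nat.Coprime A B := by
    have c1 : Nat.Coprime A 2 := by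
      rw [hA']
      have he : 2 ∣ 3 * k * (k + 1) := by
        rw [mul_assoc]
        exact Dvd.dvd.mul_left (Nat.even_mul_succ_self k).two_dvd _
      obtain ⟨c, hc⟩ := he
      rw [hc]
      simp
    have c2 : Nat.Coprime A (3 * k ^ 2 + 6 * k + 4) := by
      have e : 3 * k ^ 2 + 6 * k + 4 = A + 3 * (k + 1) := by rw [hA']; ring
      rw [e, Nat.coprime_self_add_right]
      have e2 : A = 1 + k * (3 * (k + 1)) := by rw [hA']; ring
      rw [e2, Nat.coprime_add_mul_right_left]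
      exact Nat.coprime_one_left _
    rw [hB']
    exact Nat.Coprime.mul_right c1 c2
  obtain ⟨M, hM⟩ : ∃ M, M = 2 * (k + 1) * (A * B + 48 * (k + 1) ^ 2 + 1)
    + 2 * ((A + 1) * (k + 2)) + 2 := ⟨_, rfl⟩
  refine ⟨M ^ 3, fun n hn => ?_⟩
  -- the least `m` with `m³ ≥ n + A B`
  have hex : ∃ m, n + A * B ≤ m ^ 3 := ⟨n + A * B, by
    rcases Nat.eq_zero_or_pos (n + A * B) with h | h
    · rw [h]; simp
    · exact Nat.le_self_pow (by norm_num) _⟩
  classical
  obtain ⟨m, hm1, hm2⟩ : ∃ m, n + A * B ≤ m ^ 3 ∧ ∀ m' < m, ¬ (n + A * B ≤ m' ^ 3) :=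
    ⟨Nat.find hex, Nat.find_spec hex, fun m' h => Nat.find_min hex h⟩
  have hmM : M ≤ m := by
    by_contra hcon
    push Not at hcon
    have : m ^ 3 < M ^ 3 := Nat.pow_lt_pow_left hcon (by norm_num)
    omega
  have hmpos : 0 < m := by omega
  have hm3 : m ^ 3 < n + A * B + 3 * m ^ 2 := by
    obtain ⟨l, rfl⟩ := Nat.exists_eq_succ_of_ne_zero hmpos.ne'
    have := hm2 l (Nat.lt_succ_self l)
    have e : (l + 1) ^ 3 = l ^ 3 + (3 * l ^ 2 + 3 * l + 1) := by ring
    have e2 : 3 * (l + 1) ^ 2 = 3 * l ^ 2 + 6 * l + 3 := by ring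
    simp only [Nat.succ_eq_add_one]
    rw [e, e2]
    omega
  obtain ⟨D, hD⟩ := Nat.exists_eq_add_of_le ((Nat.le_add_right n (A * B)).trans hm1)
  obtain ⟨i, j, hij, hj⟩ := exists_repr (D := D) hApos hcop (by omega)
  -- the number of blocks
  obtain ⟨q, hq⟩ : ∃ q, q = m / (2 * (k + 1)) := ⟨_, rfl⟩
  have hq1 : 2 * (k + 1) * q ≤ m := by rw [hq]; exact Nat.mul_div_le _ _
  have hq2 : m < 2 * (k + 1) * (q + 1) := by
    rw [hq]; exact Nat.lt_mul_div_succ _ (by positivity)
  have hq3 : A * B + 48 * (k + 1) ^ 2 + 1 ≤ q := by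
    rw [hq, Nat.le_div_iff_mul_le (by positivity)]
    calc (A * B + 48 * (k + 1) ^ 2 + 1) * (2 * (k + 1))
        = 2 * (k + 1) * (A * B + 48 * (k + 1) ^ 2 + 1) := by ring
      _ ≤ M := by rw [hM]; omega
      _ ≤ m := hmM
  have hi : i ≤ q ^ 3 := by
    have h1 : i ≤ D := by
      calc i = i * 1 := by ring
        _ ≤ i * A := Nat.mul_le_mul_left _ hApos
        _ ≤ D := by omega
    have h2 : D ≤ A * B + 3 * m ^ 2 := by omega
    have h3 : m ≤ 4 * (k + 1) * q := by
      have : 2 * (k + 1) * (q + 1) ≤ 4 * (k + 1) * q := by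
        have : 1 ≤ q := by omega
        calc 2 * (k + 1) * (q + 1) ≤ 2 * (k + 1) * (q + q) := by
              apply Nat.mul_le_mul_left; omega
          _ = 4 * (k + 1) * q := by ring
      omega
    have h4 : 3 * m ^ 2 ≤ 48 * (k + 1) ^ 2 * q ^ 2 := by
      calc 3 * m ^ 2 ≤ 3 * (4 * (k + 1) * q) ^ 2 := by
            apply Nat.mul_le_mul_left; exact Nat.pow_le_pow_left h3 2
        _ = 48 * (k + 1) ^ 2 * q ^ 2 := by ring
    have h5 : A * B ≤ A * B * q ^ 2 := by
      calc A * B = A * B * 1 := by ring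
        _ ≤ A * B * q ^ 2 := Nat.mul_le_mul_left _ (Nat.one_le_pow _ _ (by omega))
    calc i ≤ A * B + 3 * m ^ 2 := h1.trans h2
      _ ≤ A * B * q ^ 2 + 48 * (k + 1) ^ 2 * q ^ 2 := by omega
      _ = (A * B + 48 * (k + 1) ^ 2) * q ^ 2 := by ring
      _ ≤ q * q ^ 2 := by apply Nat.mul_le_mul_right; omega
      _ = q ^ 3 := by ring
  obtain ⟨r1, hr1⟩ : ∃ r1, q = r1 + 1 := ⟨q - 1, by omega⟩
  have hsum : (r1 + 1) * (k + 1) + (A + 1) * (k + 2) < m := by
    have e1 : 2 * ((r1 + 1) * (k + 1)) ≤ m := by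
      rw [← hr1]
      calc 2 * (q * (k + 1)) = 2 * (k + 1) * q := by ring
        _ ≤ m := hq1
    have e2 : 2 * ((A + 1) * (k + 2)) < m := by
      have : 2 * ((A + 1) * (k + 2)) < M := by rw [hM]; omega
      omega
    omega
  have hkpos : (0 : ℝ) < k := by exact_mod_cast hk
  have hmpos' : (0 : ℝ) < m := by exact_mod_cast hmpos
  refine ⟨1 / (m * k), by positivity, ?_⟩
  set h : ℝ := 1 / (m * k) with hh
  have hpos : 0 < h := by rw [hh]; positivity
  obtain ⟨S, hS⟩ : ∃ S : Set ℝ, S = {x | x = k * h ∨ x = (k + 1) * h ∨ x = (k + 2) * h} := ⟨_, rfl⟩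
  have v1 : V S h k k k 1 := V.single (by positivity) (by rw [hS]; left; rfl)
  have v2 : V S h (k + 1) (k + 1) (k + 1) 1 :=
    V.single (by positivity) (by rw [hS]; right; left; push_cast; rfl)
  have v3 : V S h (k + 2) (k + 2) (k + 2) 1 :=
    V.single (by positivity) (by rw [hS]; right; right; push_cast; rfl)
  obtain ⟨N, hN, hV⟩ := assemble hpos.le hk v1 v2 v3 (r2 := A) hsum (hr1 ▸ hi)
    (hj.le.trans ((Nat.le_succ A).trans (Nat.le_self_pow (by norm_num) _)))
  rw [← hA, ← hB] at hN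
  have hNn : N = n := by omega
  subst hNn
  obtain ⟨T, t1, t2, t3⟩ := hV 0
  refine ⟨T, ⟨fun i => (t1 i).1, t2, ?_⟩, fun i => ?_⟩
  · rw [t3]
    have e : ((m * k : ℕ) : ℝ) * h = 1 := by
      rw [hh]; push_cast; field_simp
    rw [e]
    congr 1
    ext i; fin_cases i <;> simp
  · have := (t1 i).2
    rw [hS] at this
    exact this

/-- A good tiling. -/
def Good {n : ℕ} (T : Fin n → Cube) : Prop := IsTiling T ∧ numSizes T ≤ 3

lemma one_le_ratio {n : ℕ} {T : Fin n → Cube} (hT : IsTiling T) : 1 ≤ ratio T := by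
  have hne : Nonempty (Fin n) := by
    by_contra hcon
    rw [not_nonempty_iff] at hcon
    have := hT.cover
    rw [iUnion_of_empty] at this
    have h0 : (0 : Fin 3 → ℝ) ∈ Icc (0 : Fin 3 → ℝ) 1 := ⟨le_rfl, zero_le_one⟩
    rw [← this] at h0
    exact h0
  obtain ⟨i0, hi0⟩ := exists_eq_ciInf_of_finite (f := fun i => (T i).2)
  have h1 : 0 < ⨅ i, (T i).2 := by rw [← hi0]; exact hT.pos i0
  rw [ratio, le_div_iff₀ h1, one_mul, ← hi0]
  exact le_ciSup (f := fun i => (T i).2) (Set.finite_range _).bddAbove i0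

lemma exists_good {k : ℕ} (hk : 0 < k) : ∃ n₀ : ℕ, ∀ n ≥ n₀, ∃ T : Fin n → Cube,
    Good T ∧ ratio T ≤ (k + 2) / k := by
  obtain ⟨n₀, h0⟩ := exists_tiling hk
  refine ⟨max n₀ 1, fun n hn => ?_⟩
  obtain ⟨h, hpos, T, hT, hS⟩ := h0 n (le_trans (le_max_left _ _) hn)
  have hn1 : 1 ≤ n := le_trans (le_max_right _ _) hn
  have hkpos : (0 : ℝ) < k := by exact_mod_cast hk
  have : Nonempty (Fin n) := ⟨⟨0, hn1⟩⟩
  refine ⟨T, ⟨hT, ?_⟩, ?_⟩
  · have hsub : (Finset.univ.image fun i => (T i).2) ⊆ {k * h, (k + 1) * h, (k + 2) * h} := by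
      intro x hx
      obtain ⟨i, _, rfl⟩ := Finset.mem_image.1 hx
      simp only [Finset.mem_insert, Finset.mem_singleton]
      exact hS i
    exact (Finset.card_le_card hsub).trans Finset.card_le_three
  · have h1 : ⨆ i, (T i).2 ≤ (k + 2) * h := ciSup_le fun i => by
      rcases hS i with e | e | e <;> rw [e] <;> nlinarith
    have h2 : k * h ≤ ⨅ i, (T i).2 := le_ciInf fun i => by
      rcases hS i with e | e | e <;> rw [e] <;> nlinarith
    have h3 : 0 < k * h := by positivity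
    rw [ratio, div_le_div_iff₀ (lt_of_lt_of_le h3 h2) hkpos]
    calc (⨆ i, (T i).2) * k ≤ ((k + 2) * h) * k := mul_le_mul_of_nonneg_right h1 hkpos.le
      _ = (k + 2) * (k * h) := by ring
      _ ≤ (k + 2) * ⨅ i, (T i).2 := mul_le_mul_of_nonneg_left h2 (by positivity)

/-- Three sizes suffice with ratio tending to `1`: for every large `n` there is a tiling of the unit
cube with exactly `n` cubes of at most three side lengths, and the ratio of the largest to the
smallest side length tends to `1`. -/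
theorem result : ∃ (n₀ : ℕ) (T : (n : ℕ) → Fin n → Cube),
    (∀ n ≥ n₀, IsTiling (T n) ∧ numSizes (T n) ≤ 3) ∧
    Tendsto (fun n => ratio (T n)) atTop (𝓝 1) := by
  classical
  obtain ⟨n₀, h0⟩ := exists_good (k := 1) one_pos
  have hex : ∀ n ≥ n₀, ∃ T : Fin n → Cube, Good T ∧
      ratio T < sInf {x | ∃ T : Fin n → Cube, Good T ∧ ratio T = x} + 1 / (n + 1) := by
    intro n hn
    obtain ⟨T0, g0, _⟩ := h0 n hn
    have hlt : sInf {x | ∃ T : Fin n → Cube, Good T ∧ ratio T = x}
        < sInf {x | ∃ T : Fin n → Cube, Good T ∧ ratio T = x} + 1 / ((n : ℝ) + 1) := by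
      have : (0 : ℝ) < 1 / ((n : ℝ) + 1) := by positivity
      linarith
    have hne : {x | ∃ T : Fin n → Cube, Good T ∧ ratio T = x}.Nonempty := ⟨_, T0, g0, rfl⟩
    obtain ⟨x, ⟨T, hT, rfl⟩, hx⟩ := exists_lt_of_csInf_lt hne hlt
    exact ⟨T, hT, hx⟩
  refine ⟨n₀, fun n => if h : n₀ ≤ n then Classical.choose (hex n h) else fun _ => (0, 1),
    ?_, ?_⟩
  · intro n hn
    have := (Classical.choose_spec (hex n hn)).1
    simp only [ge_iff_le] at hn
    simp only [hn, dif_pos]
    exact this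
  · rw [Metric.tendsto_atTop]
    intro ε hε
    obtain ⟨k, hk⟩ := exists_nat_gt (4 / ε)
    have hkpos : 0 < k := by
      rcases Nat.eq_zero_or_pos k with h | h
      · subst h
        have : 0 < 4 / ε := by positivity
        simp at hk
        linarith
      · exact h
    have hkpos' : (0 : ℝ) < k := by exact_mod_cast hkpos
    obtain ⟨n₁, h1⟩ := exists_good hkpos
    refine ⟨max n₀ (max n₁ k), fun n hn => ?_⟩
    have hn0 : n₀ ≤ n := (le_max_left _ _).trans hn
    have hn1 : n₁ ≤ n := ((le_max_left _ _).trans (le_max_right _ _)).trans hn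
    have hn2 : k ≤ n := ((le_max_right _ _).trans (le_max_right _ _)).trans hn
    simp only [hn0, dif_pos]
    obtain ⟨g1, g2⟩ := Classical.choose_spec (hex n hn0)
    generalize Classical.choose (hex n hn0) = T at g1 g2
    have h3 := one_le_ratio g1.1
    obtain ⟨T', g3, g4⟩ := h1 n hn1
    have h4 : sInf {x | ∃ T : Fin n → Cube, Good T ∧ ratio T = x} ≤ ratio T' :=
      csInf_le ⟨1, by rintro x ⟨T, hT, rfl⟩; exact one_le_ratio hT.1⟩ ⟨T', g3, rfl⟩
    have h5 : ((k : ℝ) + 2) / k = 1 + 2 / k := by field_simp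
    have h6 : (2 : ℝ) / k ≤ ε / 2 := by
      rw [div_le_iff₀ hkpos']
      rw [div_lt_iff₀ hε] at hk
      linarith
    have h7 : 1 / ((n : ℝ) + 1) < ε / 2 := by
      rw [div_lt_iff₀ (by positivity)]
      have : (k : ℝ) ≤ n := by exact_mod_cast hn2
      rw [div_lt_iff₀ hε] at hk
      nlinarith
    rw [Real.dist_eq, abs_lt]
    constructor <;> linarith

end Pool.Agent.Results.MP_695dce_co.ThreeSizes
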